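import Pool.Agent.Helper35.Cq.Defs

set_option autoImplicit false

open Finset Module
open scoped Classical

namespace Pool.Agent.Helper35.Cq

/-- adjacency of two indices modulo the span of `C` -/
def mR (F : Type*) [Field F] {V : Type*} [AddCommGroup V] [Module F V] {ι : Type*} (E : Set V)
    (z : ι → V) (C : Set V) (i j : ι) : Prop :=
  ∃ e ∈ E, z i - z j - e ∈ Submodule.span F C

theorem mader_inj {ι : Type*} (R : ι → ι → Prop) (hR : ∀ a b, R a b → R b a)
    (i j a b a' b' : ι) (h3 : a ≠ b) (h4 : R a b) (h5 : a = j → b ≠ i ∧ ¬ R i b)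
    (h6 : b = j → a ≠ i ∧ ¬ R i a) (h3' : a' ≠ b') (h4' : R a' b')
    (h5' : a' = j → b' ≠ i ∧ ¬ R i b') (h6' : b' = j → a' ≠ i ∧ ¬ R i a')
    (g1 : (if a = j then i else a) = if a' = j then i else a')
    (g2 : (if b = j then i else b) = if b' = j then i else b') : a = a' ∧ b = b' := by
  by_cases ha : a = j
  · have hb : b ≠ j := fun h => h3 (ha.trans h.symm)
    rw [if_pos ha] at g1
    rw [if_neg hb] at g2
    by_cases ha' : a' = j
    · have hb' : b' ≠ j := fun h => h3' (ha'.trans h.symm)
      rw [if_neg hb'] at g2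
      exact ⟨ha.trans ha'.symm, g2⟩
    · rw [if_neg ha'] at g1
      by_cases hb' : b' = j
      · rw [if_pos hb'] at g2
        exact absurd g2 (h5 ha).1
      · rw [if_neg hb'] at g2
        exact absurd (by rw [g1, g2]; exact h4') (h5 ha).2
  · rw [if_neg ha] at g1
    by_cases hb : b = j
    · rw [if_pos hb] at g2
      by_cases hb' : b' = j
      · have ha' : a' ≠ j := fun h => h3' (h.trans hb'.symm)
        rw [if_neg ha'] at g1
        exact ⟨g1, hb.trans hb'.symm⟩
      · rw [if_neg hb'] at g2
        by_cases ha' : a' = j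
        · rw [if_pos ha'] at g1
          exact absurd g1 (h6 hb).1
        · rw [if_neg ha'] at g1
          exact absurd (by rw [g1, g2]; exact hR _ _ h4') (h6 hb).2
    · rw [if_neg hb] at g2
      by_cases ha' : a' = j
      · rw [if_pos ha'] at g1
        have hb' : b' ≠ j := fun h => h3' (ha'.trans h.symm)
        rw [if_neg hb'] at g2
        exact absurd (by rw [← g1, ← g2]; exact h4) (h5' ha').2
      · rw [if_neg ha'] at g1
        by_cases hb' : b' = j
        · rw [if_pos hb'] at g2
          exact absurd (by rw [← g1, ← g2]; exact hR _ _ h4) (h6' hb').2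
        · rw [if_neg hb'] at g2
          exact ⟨g1, g2⟩

section
variable {F : Type*} [Field F] {V : Type*} [AddCommGroup V] [Module F V] {ι : Type*} {E : Set V}
  {z : ι → V}

theorem mR_symm (hneg : ∀ x ∈ E, -x ∈ E) {C : Set V} {i j : ι} (h : mR F E z C i j) :
    mR F E z C j i := by
  obtain ⟨e, he, h⟩ := h
  refine ⟨-e, hneg e he, ?_⟩
  have := neg_mem h
  convert this using 1
  abel

theorem mR_mono {C C' : Set V} (hC : C ⊆ C') {i j : ι} (h : mR F E z C i j) :
    mR F E z C' i j := by
  obtain ⟨e, he, h⟩ := h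
  exact ⟨e, he, Submodule.span_mono hC h⟩

/-- the pairs of adjacent indices -/
noncomputable def mP (F : Type*) [Field F] {V : Type*} [AddCommGroup V] [Module F V] {ι : Type*}
    (E : Set V) (z : ι → V) (C : Set V) (J : Finset ι) : Finset (ι × ι) :=
  (J ×ˢ J).filter fun p => p.1 ≠ p.2 ∧ mR F E z C p.1 p.2

theorem mem_mP {C : Set V} {J : Finset ι} {p : ι × ι} :
    p ∈ mP F E z C J ↔ p.1 ∈ J ∧ p.2 ∈ J ∧ p.1 ≠ p.2 ∧ mR F E z C p.1 p.2 := by
  simp [mP, and_assoc]

/-- independence modulo the span of `C` -/
def mInd (F : Type*) [Field F] {V : Type*} [AddCommGroup V] [Module F V] {ι : Type*}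
    (z : ι → V) (C : Set V) (J : Finset ι) : Prop :=
  ∀ α : ι → F, ∑ i ∈ J, α i • z i ∈ Submodule.span F C → ∀ i ∈ J, α i = 0

/-- common neighbours -/
noncomputable def mCom (F : Type*) [Field F] {V : Type*} [AddCommGroup V] [Module F V]
    {ι : Type*} (E : Set V) (z : ι → V) (C : Set V) (J : Finset ι) (i j : ι) : Finset ι :=
  J.filter fun k => k ≠ i ∧ k ≠ j ∧ mR F E z C i k ∧ mR F E z C j k

theorem mInd_contract {C : Set V} {J : Finset ι} (hind : mInd F z C J) {i j : ι} (hi : i ∈ J)
    (hj : j ∈ J) (hij : i ≠ j) {e : V} (he : z i - z j - e ∈ Submodule.span F C) :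
    mInd F z (insert e C) (J.erase j) := by
  intro α hα
  rw [Submodule.mem_span_insert] at hα
  obtain ⟨c, s, hs, hα⟩ := hα
  have h1 : ∑ l ∈ J, ((if l = j then c else 0) + (if l = i then -c else 0) +
      (if l = j then 0 else α l)) • z l ∈ Submodule.span F C := by
    simp only [add_smul, Finset.sum_add_distrib, ite_smul, zero_smul]
    rw [Finset.sum_ite_eq' J j, Finset.sum_ite_eq' J i, if_pos hj, if_pos hi]
    have h2 : ∑ x ∈ J, (if x = j then 0 else α x • z x) = ∑ x ∈ J.erase j, α x • z x := by
      rw [← Finset.sum_erase_add J _ hj, if_pos rfl, add_zero]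
      apply Finset.sum_congr rfl
      intro x hx
      rw [if_neg (Finset.ne_of_mem_erase hx)]
    rw [h2, hα]
    have h3 : c • z j + -c • z i + (c • e + s) = s - c • (z i - z j - e) := by
      simp only [smul_sub, neg_smul]; abel
    rw [h3]
    exact Submodule.sub_mem _ hs (Submodule.smul_mem _ _ he)
  have h2 := hind _ h1
  have hc : c = 0 := by
    have := h2 j hj
    simpa [hij.symm] using this
  intro l hl
  have := h2 l (Finset.mem_of_mem_erase hl)
  have hlj := Finset.ne_of_mem_erase hl
  simpa [hc, hlj] using this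

theorem mP_contract (hneg : ∀ x ∈ E, -x ∈ E) {C : Set V} {J : Finset ι} {i j : ι} (hi : i ∈ J)
    (hj : j ∈ J) (hij : i ≠ j) {e : V}
    (he : z i - z j - e ∈ Submodule.span F C) :
    (mP F E z C J).card ≤ (mP F E z (insert e C) (J.erase j)).card + 2 +
      2 * (mCom F E z C J i j).card := by
  set Com := mCom F E z C J i j with hCom
  have hcomm : ∀ k, k ∈ Com ↔ k ∈ J ∧ k ≠ i ∧ k ≠ j ∧ mR F E z C i k ∧ mR F E z C j k := by
    intro k; simp [hCom, mCom]
  set A : Finset (ι × ι) := {(i, j), (j, i)} with hA
  set B : Finset (ι × ι) := Com.image fun k => (j, k) with hB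
  set D : Finset (ι × ι) := Com.image fun k => (k, j) with hD
  have hAc : A.card ≤ 2 := Finset.card_le_two
  have hBc : B.card ≤ Com.card := Finset.card_image_le
  have hDc : D.card ≤ Com.card := Finset.card_image_le
  have hsub : (mP F E z C J).card ≤ ((mP F E z C J) \ (A ∪ B ∪ D)).card + (A ∪ B ∪ D).card := by
    have := Finset.le_card_sdiff (A ∪ B ∪ D) (mP F E z C J)
    omega
  have hun : (A ∪ B ∪ D).card ≤ A.card + B.card + D.card :=
    (Finset.card_union_le _ _).trans (Nat.add_le_add_right (Finset.card_union_le _ _) _)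
  have hinj : ((mP F E z C J) \ (A ∪ B ∪ D)).card ≤
      (mP F E z (insert e C) (J.erase j)).card := by
    -- description of the remaining pairs
    have hmem : ∀ a b, (a, b) ∈ (mP F E z C J) \ (A ∪ B ∪ D) →
        a ∈ J ∧ b ∈ J ∧ a ≠ b ∧ mR F E z C a b ∧ ((a = j → b ≠ i ∧ ¬ mR F E z C i b) ∧
          (b = j → a ≠ i ∧ ¬ mR F E z C i a)) := by
      intro a b h
      rw [Finset.mem_sdiff, mem_mP] at h
      obtain ⟨⟨h1, h2, h3, h4⟩, h5⟩ := h
      simp only at h1 h2 h3 h4
      simp only [Finset.mem_union, not_or] at h5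
      obtain ⟨⟨hA5, hB5⟩, hD5⟩ := h5
      refine ⟨h1, h2, h3, h4, ?_, ?_⟩
      · rintro rfl
        have hbi : b ≠ i := by
          rintro rfl
          exact hA5 (by simp [hA])
        refine ⟨hbi, fun hR => hB5 ?_⟩
        rw [hB, Finset.mem_image]
        exact ⟨b, (hcomm b).2 ⟨h2, hbi, h3.symm, hR, h4⟩, rfl⟩
      · rintro rfl
        have hai : a ≠ i := by
          rintro rfl
          exact hA5 (by simp [hA])
        refine ⟨hai, fun hR => hD5 ?_⟩
        rw [hD, Finset.mem_image]
        exact ⟨a, (hcomm a).2 ⟨h1, hai, h3, hR, mR_symm hneg h4⟩, rfl⟩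
    have hes : e ∈ Submodule.span F (insert e C) :=
      Submodule.subset_span (Set.mem_insert _ _)
    have hle : Submodule.span F C ≤ Submodule.span F (insert e C) :=
      Submodule.span_mono (Set.subset_insert _ _)
    refine Finset.card_le_card_of_injOn
      (fun p => (if p.1 = j then i else p.1, if p.2 = j then i else p.2)) ?_ ?_
    · rintro ⟨a, b⟩ hp
      obtain ⟨h1, h2, h3, h4, h5, h6⟩ := hmem a b hp
      simp only [Finset.mem_coe, mem_mP, Finset.mem_erase]
      by_cases ha : a = j
      · have hb : b ≠ j := fun h => h3 (ha.trans h.symm)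
        rw [if_pos ha, if_neg hb]
        refine ⟨⟨hij, hi⟩, ⟨hb, h2⟩, (h5 ha).1.symm, ?_⟩
        obtain ⟨e', he', h4⟩ := h4
        refine ⟨e', he', ?_⟩
        have h7 : z i - z b - e' = (z i - z j - e) + (z a - z b - e') + e := by
          rw [ha]; abel
        rw [h7]
        exact Submodule.add_mem _ (Submodule.add_mem _ (hle he) (hle h4)) hes
      · by_cases hb : b = j
        · rw [if_neg ha, if_pos hb]
          refine ⟨⟨ha, h1⟩, ⟨hij, hi⟩, (h6 hb).1, ?_⟩
          obtain ⟨e', he', h4⟩ := h4
          refine ⟨e', he', ?_⟩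
          have h7 : z a - z i - e' = (z a - z b - e') - (z i - z j - e) - e := by
            rw [hb]; abel
          rw [h7]
          exact Submodule.sub_mem _ (Submodule.sub_mem _ (hle h4) (hle he)) hes
        · rw [if_neg ha, if_neg hb]
          exact ⟨⟨ha, h1⟩, ⟨hb, h2⟩, h3, mR_mono (Set.subset_insert _ _) h4⟩
    · rintro ⟨a, b⟩ hp ⟨a', b'⟩ hp' heq
      obtain ⟨h1, h2, h3, h4, h5, h6⟩ := hmem a b hp
      obtain ⟨h1', h2', h3', h4', h5', h6'⟩ := hmem a' b' hp'
      simp only [Prod.mk.injEq] at heq ⊢
      exact mader_inj (mR F E z C) (fun _ _ h => mR_symm hneg h) i j a b a' b' h3 h4 h5 h6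
        h3' h4' h5' h6' heq.1 heq.2
  omega

theorem mem_span_image_finset_fun {S : Finset ι} {w : V}
    (hw : w ∈ Submodule.span F (z '' S)) : ∃ β : ι → F, ∑ l ∈ S, β l • z l = w := by
  rw [Submodule.mem_span_image_finset_iff_exists_fun] at hw
  obtain ⟨β, hβ⟩ := hw
  refine ⟨fun l => if h : l ∈ S then β ⟨l, h⟩ else 0, ?_⟩
  rw [← hβ, ← Finset.sum_coe_sort S]
  apply Finset.sum_congr rfl
  intro x _
  simp only [x.2, dif_pos]

/-- the conclusion of Mader's argument -/
def mConcl (F : Type*) [Field F] {V : Type*} [AddCommGroup V] [Module F V] {ι : Type*}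
    (E : Set V) (z : ι → V) (t : ℕ) (J : Finset ι) (C : Set V) : Prop :=
  ∃ C' ⊆ E, C ⊆ C' ∧ C' ⊆ (Submodule.span F C ⊔ Submodule.span F (z '' J) : Submodule F V) ∧
      ∃ k : Fin t → ι, (∀ a, k a ∈ J) ∧
      (∀ α : Fin t → F, ∑ a, α a • z (k a) ∈ Submodule.span F C' → α = 0) ∧
      ∀ a b, a ≠ b → mR F E z C' (k a) (k b)

/-- all common neighbours are many -/
theorem mader_caseB (hneg : ∀ x ∈ E, -x ∈ E) {C : Set V} {J : Finset ι} (hind : mInd F z C J)
    (t m : ℕ)
    (ih : ∀ J2 : Finset ι, J2 ⊆ J → J2.Nonempty → m * J2.card ≤ (mP F E z C J2).card →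
      mConcl F E z t J2 C)
    (hpos : 0 < (mP F E z C J).card)
    (hB : ∀ i ∈ J, ∀ j ∈ J, i ≠ j → mR F E z C i j → m ≤ (mCom F E z C J i j).card) :
    mConcl F E z (t + 1) J C := by
  obtain ⟨⟨i, j⟩, hp⟩ := Finset.card_pos.1 hpos
  rw [mem_mP] at hp
  obtain ⟨hi, hj, hij, hR⟩ := hp
  simp only at hi hj hij hR
  set J2 := J.filter fun k => k ≠ i ∧ mR F E z C i k with hJ2
  have hmem : ∀ k, k ∈ J2 ↔ k ∈ J ∧ k ≠ i ∧ mR F E z C i k := by
    intro k; simp [hJ2]
  have hsub : J2 ⊆ J := Finset.filter_subset _ _
  have hne : J2.Nonempty := ⟨j, (hmem j).2 ⟨hj, hij.symm, hR⟩⟩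
  have hcard : m * J2.card ≤ (mP F E z C J2).card := by
    have h1 : (mP F E z C J2).card = ∑ k ∈ J2, ((mP F E z C J2).filter fun p => p.1 = k).card := by
      apply Finset.card_eq_sum_card_fiberwise
      intro p hp
      rw [Finset.mem_coe, mem_mP] at hp
      exact hp.1
    rw [h1, mul_comm, ← smul_eq_mul, ← Finset.sum_const]
    apply Finset.sum_le_sum
    intro k hk
    obtain ⟨hkJ, hki, hkR⟩ := (hmem k).1 hk
    refine (hB i hi k hkJ hki.symm hkR).trans ?_
    refine Finset.card_le_card_of_injOn (fun l => (k, l)) ?_ ?_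
    · intro l hl
      simp only [mCom, Finset.mem_coe, Finset.mem_filter] at hl
      simp only [Finset.mem_coe, Finset.mem_filter, mem_mP]
      exact ⟨⟨hk, (hmem l).2 ⟨hl.1, hl.2.1, hl.2.2.2.1⟩, hl.2.2.1.symm, hl.2.2.2.2⟩, trivial⟩
    · intro a _ b _ h
      simpa using h
  obtain ⟨C', hC'E, hCC', hC's, k, hk, hki, hkR⟩ := ih J2 hsub hne hcard
  have hle : Submodule.span F C ≤ Submodule.span F C' := Submodule.span_mono hCC'
  refine ⟨C', hC'E, hCC', hC's.trans ?_, Fin.cons i k, ?_, ?_, ?_⟩
  · exact SetLike.coe_subset_coe.2 (sup_le_sup_left (Submodule.span_mono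
      (Set.image_mono (Finset.coe_subset.2 hsub))) _)
  · intro a
    refine Fin.cases ?_ (fun b => ?_) a
    · simpa using hi
    · simpa using hsub (hk b)
  · intro α hα
    rw [Fin.sum_univ_succ] at hα
    simp only [Fin.cons_zero, Fin.cons_succ] at hα
    have hC'' : Submodule.span F C' ≤ Submodule.span F C ⊔ Submodule.span F (z '' J2) :=
      Submodule.span_le.2 hC's
    have hz : ∑ a : Fin t, α a.succ • z (k a) ∈
        Submodule.span F C ⊔ Submodule.span F (z '' J2) := by
      apply Submodule.sum_mem
      intro a _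
      apply Submodule.smul_mem
      exact Submodule.mem_sup_right (Submodule.subset_span ⟨k a, hk a, rfl⟩)
    have h0 : α 0 • z i ∈ Submodule.span F C ⊔ Submodule.span F (z '' J2) := by
      have := Submodule.sub_mem _ (hC'' hα) hz
      simpa using this
    rw [Submodule.mem_sup] at h0
    obtain ⟨c, hc, w, hw, hcw⟩ := h0
    obtain ⟨β, hβ⟩ := mem_span_image_finset_fun hw
    have hα0 : α 0 = 0 := by
      have h1 : ∑ l ∈ J, ((if l = i then α 0 else 0) - (if l ∈ J2 then β l else 0)) • z l ∈
          Submodule.span F C := by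
        simp only [sub_smul, Finset.sum_sub_distrib, ite_smul, zero_smul]
        rw [Finset.sum_ite_eq' J i, if_pos hi, ← Finset.sum_filter]
        have h2 : J.filter (fun l => l ∈ J2) = J2 := by
          ext l
          simp only [Finset.mem_filter, and_iff_right_iff_imp]
          exact fun h => hsub h
        rw [h2, hβ, ← hcw]
        simpa using hc
      have := hind _ h1 i hi
      have hi2 : i ∉ J2 := fun h => ((hmem i).1 h).2.1 rfl
      simpa [hi2] using this
    rw [hα0, zero_smul, zero_add] at hα
    have := hki _ hα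
    funext a
    refine Fin.cases hα0 (fun b => ?_) a
    exact congrFun this b
  · intro a b
    refine Fin.cases ?_ (fun a' => ?_) a
    · refine Fin.cases ?_ (fun b' => ?_) b
      · intro h; exact absurd rfl h
      · intro _
        simp only [Fin.cons_zero, Fin.cons_succ]
        exact mR_mono hCC' ((hmem _).1 (hk b')).2.2
    · refine Fin.cases ?_ (fun b' => ?_) b
      · intro _
        simp only [Fin.cons_zero, Fin.cons_succ]
        exact mR_symm hneg (mR_mono hCC' ((hmem _).1 (hk a')).2.2)
      · intro h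
        simp only [Fin.cons_succ]
        exact hkR a' b' fun h' => h (by rw [h'])

theorem mader_aux (hneg : ∀ x ∈ E, -x ∈ E) (t : ℕ) : ∀ (n : ℕ) (J : Finset ι) (C : Set V),
    J.card ≤ n → C ⊆ E → J.Nonempty → mInd F z C J →
    2 ^ (t - 1) * J.card ≤ (mP F E z C J).card → mConcl F E z t J C := by
  induction t with
  | zero =>
    intro n J C _ hC _ _ _
    exact ⟨C, hC, subset_rfl, fun x hx => Submodule.mem_sup_left (Submodule.subset_span hx),
      Fin.elim0, fun a => a.elim0, fun α _ => funext fun a => a.elim0, fun a => a.elim0⟩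
  | succ t ih =>
    rcases Nat.eq_zero_or_pos t with rfl | ht
    · intro n J C _ hC hJ hind _
      obtain ⟨i, hi⟩ := hJ
      refine ⟨C, hC, subset_rfl, fun x hx => Submodule.mem_sup_left (Submodule.subset_span hx),
        fun _ => i, fun _ => hi, ?_, ?_⟩
      · intro α hα
        rw [Fin.sum_univ_one] at hα
        have h1 : ∑ l ∈ J, (if l = i then α 0 else 0) • z l ∈ Submodule.span F C := by
          simp only [ite_smul, zero_smul]
          rw [Finset.sum_ite_eq' J i, if_pos hi]
          exact hα
        have := hind _ h1 i hi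
        simp only [if_true] at this
        funext a
        have ha : a = 0 := Fin.ext (by omega)
        rw [ha]
        exact this
      · intro a b hab
        exact absurd (Fin.ext (by omega)) hab
    · obtain ⟨u, rfl⟩ : ∃ u, t = u + 1 := ⟨t - 1, by omega⟩
      simp only [Nat.add_sub_cancel] at ih ⊢
      intro n
      induction n with
      | zero =>
        intro J C hn _ hJ
        have := hJ.card_pos
        omega
      | succ n ihn =>
        intro J C hn hC hJ hind hcard
        by_cases hA : ∃ i ∈ J, ∃ j ∈ J, i ≠ j ∧ mR F E z C i j ∧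
          (mCom F E z C J i j).card < 2 ^ u
        · obtain ⟨i, hi, j, hj, hij, ⟨e, heE, he⟩, hlt⟩ := hA
          have h1 := mP_contract (F := F) (C := C) hneg hi hj hij he
          have hc : (J.erase j).card + 1 = J.card := Finset.card_erase_add_one hj
          have hcard1 : 2 ^ (u + 1) * (J.erase j).card ≤
              (mP F E z (insert e C) (J.erase j)).card := by
            rw [← hc] at hcard
            rw [Nat.mul_add, mul_one] at hcard
            have : 2 ^ (u + 1) = 2 * 2 ^ u := by ring
            omega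
          obtain ⟨C', hC'E, hCC', hC's, k, hk, hki, hkR⟩ := ihn (J.erase j) (insert e C)
            (by omega) (Set.insert_subset heE hC) ⟨i, Finset.mem_erase.2 ⟨hij, hi⟩⟩
            (mInd_contract hind hi hj hij he) hcard1
          refine ⟨C', hC'E, (Set.subset_insert _ _).trans hCC', hC's.trans ?_, k,
            fun a => Finset.mem_of_mem_erase (hk a), hki, hkR⟩
          apply SetLike.coe_subset_coe.2
          apply sup_le
          · rw [Submodule.span_le]
            intro x hx
            rcases hx with rfl | hx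
            · have h2 : x = (z i - z j) - (z i - z j - x) := by abel
              rw [h2]
              apply Submodule.sub_mem
              · apply Submodule.mem_sup_right
                exact Submodule.sub_mem _ (Submodule.subset_span ⟨i, hi, rfl⟩)
                  (Submodule.subset_span ⟨j, hj, rfl⟩)
              · exact Submodule.mem_sup_left he
            · exact Submodule.mem_sup_left (Submodule.subset_span hx)
          · exact le_sup_of_le_right (Submodule.span_mono
              (Set.image_mono (Finset.coe_subset.2 (Finset.erase_subset _ _))))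
        · push Not at hA
          refine mader_caseB hneg hind (u + 1) (2 ^ u) ?_ ?_ ?_
          · intro J2 hJ2 hne hc2
            refine ih J2.card J2 C le_rfl hC hne ?_ hc2
            intro α hα
            have h1 : ∑ l ∈ J, (if l ∈ J2 then α l else 0) • z l ∈ Submodule.span F C := by
              simp only [ite_smul, zero_smul]
              rw [← Finset.sum_filter]
              have h2 : J.filter (fun l => l ∈ J2) = J2 := by
                ext l
                simp only [Finset.mem_filter, and_iff_right_iff_imp]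
                exact fun h => hJ2 h
              rw [h2]
              exact hα
            intro l hl
            have := hind _ h1 l (hJ2 hl)
            simpa [hl] using this
          · refine lt_of_lt_of_le ?_ hcard
            exact Nat.mul_pos (by positivity) hJ.card_pos
          · intro i hi j hj hij hR
            exact hA i hi j hj hij hR

end

/-- **Mader's argument** modulo a subspace. -/
theorem mader {F : Type*} [Field F] {V : Type*} [AddCommGroup V] [Module F V]
    {ι : Type*} (E : Set V) (hneg : ∀ x ∈ E, -x ∈ E) (z : ι → V) (t : ℕ) (J : Finset ι)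
    (C : Set V) (hC : C ⊆ E) (hJ : J.Nonempty)
    (hind : ∀ α : ι → F, ∑ i ∈ J, α i • z i ∈ Submodule.span F C → ∀ i ∈ J, α i = 0)
    (hcard : 2 ^ (t - 1) * J.card ≤ ((J ×ˢ J).filter fun p => p.1 ≠ p.2 ∧
      ∃ e ∈ E, z p.1 - z p.2 - e ∈ Submodule.span F C).card) :
    ∃ C' ⊆ E, C ⊆ C' ∧ C' ⊆ (Submodule.span F C ⊔ Submodule.span F (z '' J) : Submodule F V) ∧
      ∃ k : Fin t → ι, (∀ a, k a ∈ J) ∧
      (∀ α : Fin t → F, ∑ a, α a • z (k a) ∈ Submodule.span F C' → α = 0) ∧
      ∀ a b, a ≠ b → ∃ e ∈ E, z (k a) - z (k b) - e ∈ Submodule.span F C' :=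
  mader_aux hneg t J.card J C le_rfl hC hJ hind hcard

end Pool.Agent.Helper35.Cq
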